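import Pool.Agent.Helper826.Kap.Defs

/-!
# MP_331e4f_al: groups containing squares, and wreath products

The definitions `AugIdeal`, `LocFin`, `NilAug`, `RadicalIsAug` are in
`Pool/Agent/Helper826/Kap/Defs.lean`, the restricted wreath product `Wr D Q` in `Wreath.lean`.
-/

set_option autoImplicit false

namespace Pool.Agent.Results.MP_331e4f_al.Squares

open Pool.Agent.Helper826.Kap

/-- Let `K` be a field and `G` a group with `ω(K[G]) = 𝒥(K[G])`.
(1) If `H × H` embeds in `G`, then `ω(K[H])` is nil.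
(2) If `(D ≀ Q) × (D ≀ Q)` embeds in `G`, with `D ≠ 1`, then `Q` is locally finite.
(3) If `G ≠ 1` is locally finite, or `G = (D ≀ Q) × (D ≀ Q)` with `D ≠ 1` locally finite and `Q`
arbitrary, then the characteristic of `K` is a prime `p` and `G` is a locally finite `p`-group. -/
theorem result (K : Type) [Field K] :
    (∀ (G : Type) [Group G], RadicalIsAug K G →
      (∀ (H : Type) [Group H] (φ : H × H →* G), Function.Injective φ → NilAug K H) ∧
      (∀ (D Q : Type) [Group D] [Nontrivial D] [Group Q] (φ : Wr D Q × Wr D Q →* G),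
        Function.Injective φ → LocFin Q) ∧
      (Nontrivial G → LocFin G → ∃ p : ℕ, p.Prime ∧ CharP K p ∧ IsPGroup p G)) ∧
    (∀ (D Q : Type) [Group D] [Nontrivial D] [Group Q], LocFin D →
      RadicalIsAug K (Wr D Q × Wr D Q) →
      ∃ p : ℕ, p.Prime ∧ CharP K p ∧ IsPGroup p (Wr D Q × Wr D Q) ∧
        LocFin (Wr D Q × Wr D Q)) := by
  constructor
  · intro G _ hJ
    have hJ' : Aug K G ≤ Ideal.jacobson ⊥ := le_of_eq (by exact hJ.symm)
    refine ⟨fun H _ φ hφ => square K G hJ' H φ hφ, fun D Q _ _ _ φ hφ S => ?_, fun hn hlf => ?_⟩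
    · exact wreath_nil K D Q (square K G hJ' (Wr D Q) φ hφ) S
    · obtain ⟨p, h1, h2, h3, -⟩ := forward K G hJ' hlf
      exact ⟨p, h1, h2, h3⟩
  · intro D Q _ _ _ hD hJ
    have hJ' : Aug K (Wr D Q × Wr D Q) ≤ Ideal.jacobson ⊥ := le_of_eq (by exact hJ.symm)
    have hnil := square K (Wr D Q × Wr D Q) hJ' (Wr D Q) (MonoidHom.id _) Function.injective_id
    have hQ : LocFin Q := fun S => wreath_nil K D Q hnil S
    have hW : LocFin (Wr D Q) := wreath_locally_finite D Q hD hQ
    have hWW : LocFin (Wr D Q × Wr D Q) := prod_locally_finite _ _ hW hW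
    have hnt : Nontrivial (Wr D Q) := by
      obtain ⟨a, ha⟩ := exists_ne (1 : D)
      refine ⟨base a, 1, fun h => ha ?_⟩
      have h1 := left_base_one (Q := Q) a
      rw [h] at h1
      exact h1.symm
    obtain ⟨p, h1, h2, h3, -⟩ := forward K (Wr D Q × Wr D Q) hJ' hWW
    exact ⟨p, h1, h2, h3, hWW⟩

end Pool.Agent.Results.MP_331e4f_al.Squares
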